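import Mathlib

set_option autoImplicit false

/-!
A fuzzy implication that satisfies only (CP) with respect to a fuzzy negation.
-/

namespace Pool.Agent.Results.MP_e504dd_lc.OnlyCP

/-- A fuzzy negation on `[0,1]`: non-increasing, `N 0 = 1` and `N 1 = 0`. -/
def IsFuzzyNegation (N : unitInterval → unitInterval) : Prop :=
  Antitone N ∧ N 0 = 1 ∧ N 1 = 0

/-- A fuzzy implication on `[0,1]`: non-increasing in the first variable, non-decreasing in the
second variable, `I 0 0 = 1`, `I 1 1 = 1` and `I 1 0 = 0`. -/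
def IsFuzzyImplication (I : unitInterval → unitInterval → unitInterval) : Prop :=
  (∀ x x' y, x ≤ x' → I x' y ≤ I x y) ∧ (∀ x y y', y ≤ y' → I x y ≤ I x y') ∧
    I 0 0 = 1 ∧ I 1 1 = 1 ∧ I 1 0 = 0

/-- Contrapositive symmetry (CP) of `I` with respect to `N`. -/
def CP (I : unitInterval → unitInterval → unitInterval) (N : unitInterval → unitInterval) : Prop :=
  ∀ x y, I x y = I (N y) (N x)

/-- Left contrapositive symmetry (L-CP) of `I` with respect to `N`. -/
def LCP (I : unitInterval → unitInterval → unitInterval) (N : unitInterval → unitInterval) :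
    Prop :=
  ∀ x y, I (N x) y = I (N y) x

/-- Right contrapositive symmetry (R-CP) of `I` with respect to `N`. -/
def RCP (I : unitInterval → unitInterval → unitInterval) (N : unitInterval → unitInterval) :
    Prop :=
  ∀ x y, I x (N y) = I y (N x)

/-- `I` satisfies only (CP) with respect to `N`: (CP) holds, (L-CP) and (R-CP) both fail. -/
def OnlySatisfiesCP (I : unitInterval → unitInterval → unitInterval)
    (N : unitInterval → unitInterval) : Prop :=
  CP I N ∧ ¬ LCP I N ∧ ¬ RCP I N

/-- The continuous strictly decreasing negation `x ↦ 1 - x ^ 2`. -/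
noncomputable def sqNeg (x : unitInterval) : unitInterval :=
  ⟨1 - (x : ℝ) ^ 2, by
    have h0 := x.2.1
    have h1 := x.2.2
    constructor <;> nlinarith⟩

open Classical in
/-- The implication with value `1` if `x ≤ y` and value `0` otherwise. -/
noncomputable def rescher (x y : unitInterval) : unitInterval := if x ≤ y then 1 else 0

theorem sqNeg_le_iff (x y : unitInterval) : sqNeg y ≤ sqNeg x ↔ x ≤ y := by
  have hx := x.2.1
  have hy := y.2.1
  rw [← Subtype.coe_le_coe, ← Subtype.coe_le_coe]
  show 1 - (y : ℝ) ^ 2 ≤ 1 - (x : ℝ) ^ 2 ↔ (x : ℝ) ≤ y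
  constructor
  · intro h
    have : (x : ℝ) ^ 2 ≤ (y : ℝ) ^ 2 := by linarith
    exact (sq_le_sq₀ hx hy).1 this
  · intro h
    have : (x : ℝ) ^ 2 ≤ (y : ℝ) ^ 2 := (sq_le_sq₀ hx hy).2 h
    linarith

/-- There are a fuzzy implication `I` and a fuzzy negation `N` such that `I` satisfies only (CP)
with respect to `N`. -/
theorem result :
    ∃ (I : unitInterval → unitInterval → unitInterval) (N : unitInterval → unitInterval),
      IsFuzzyImplication I ∧ IsFuzzyNegation N ∧ OnlySatisfiesCP I N := by
  classical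
  refine ⟨rescher, sqNeg, ⟨?_, ?_, ?_, ?_, ?_⟩, ⟨?_, ?_, ?_⟩, ?_, ?_, ?_⟩
  · intro x x' y h
    unfold rescher
    by_cases h1 : x' ≤ y
    · rw [if_pos h1, if_pos (h.trans h1)]
    · rw [if_neg h1]; exact bot_le
  · intro x y y' h
    unfold rescher
    by_cases h1 : x ≤ y
    · rw [if_pos h1, if_pos (h1.trans h)]
    · rw [if_neg h1]; exact bot_le
  · simp [rescher]
  · simp [rescher]
  · unfold rescher
    rw [if_neg]
    exact not_le.2 zero_lt_one
  · intro x y h
    exact (sqNeg_le_iff x y).2 h
  · apply Subtype.ext; simp [sqNeg]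
  · apply Subtype.ext; simp [sqNeg]
  · intro x y
    unfold rescher
    by_cases h : x ≤ y
    · rw [if_pos h, if_pos ((sqNeg_le_iff x y).2 h)]
    · rw [if_neg h, if_neg (fun h' => h ((sqNeg_le_iff x y).1 h'))]
  · intro h
    -- x = 3/4, y = 7/16
    have := h ⟨3/4, by norm_num, by norm_num⟩ ⟨7/16, by norm_num, by norm_num⟩
    have e1 : rescher (sqNeg ⟨3/4, by norm_num, by norm_num⟩)
        ⟨7/16, by norm_num, by norm_num⟩ = 1 := by
      unfold rescher
      rw [if_pos]
      rw [← Subtype.coe_le_coe]; simp only [sqNeg]; norm_num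
    have e2 : rescher (sqNeg ⟨7/16, by norm_num, by norm_num⟩)
        ⟨3/4, by norm_num, by norm_num⟩ = 0 := by
      unfold rescher
      rw [if_neg]
      rw [← Subtype.coe_le_coe]; simp only [sqNeg]; norm_num
    rw [e1, e2] at this
    exact one_ne_zero this
  · intro h
    -- x = 3/4, y = 1/2
    have := h ⟨3/4, by norm_num, by norm_num⟩ ⟨1/2, by norm_num, by norm_num⟩
    have e1 : rescher ⟨3/4, by norm_num, by norm_num⟩
        (sqNeg ⟨1/2, by norm_num, by norm_num⟩) = 1 := by
      unfold rescher
      rw [if_pos]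
      rw [← Subtype.coe_le_coe]; simp only [sqNeg]; norm_num
    have e2 : rescher ⟨1/2, by norm_num, by norm_num⟩
        (sqNeg ⟨3/4, by norm_num, by norm_num⟩) = 0 := by
      unfold rescher
      rw [if_neg]
      rw [← Subtype.coe_le_coe]; simp only [sqNeg]; norm_num
    rw [e1, e2] at this
    exact one_ne_zero this

end Pool.Agent.Results.MP_e504dd_lc.OnlyCP
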